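import Mathlib

/-! Finite groups with small conjugacy classes have a small commutator subgroup (B. H. Neumann). -/

set_option autoImplicit false

namespace Pool.Agent.Y392.Neu

open Subgroup
open scoped commutatorElement

variable {G : Type*} [Group G]

/-- the conjugates of `a` -/
def cl (a : G) : Set G := Set.range fun g : G => g * a * g⁻¹

theorem mem_centralizer_single {a g : G} : g ∈ centralizer ({a} : Set G) ↔ g * a = a * g := by
  rw [mem_centralizer_iff]
  constructor
  · intro h
    exact (h a rfl).symm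
  · rintro h x rfl
    exact h.symm

theorem card_cl [Finite G] (a : G) : Nat.card (cl a) = (centralizer ({a} : Set G)).index := by
  classical
  have h1 : QuotientGroup.leftRel (centralizer ({a} : Set G)) =
      Setoid.ker (fun g : G => g * a * g⁻¹) := by
    ext x y
    rw [QuotientGroup.leftRel_apply, Setoid.ker_def, mem_centralizer_single]
    constructor
    · intro h
      have : x⁻¹ * y * a * y⁻¹ * x = a := by
        rw [h]; group
      calc x * a * x⁻¹ = x * (x⁻¹ * y * a * y⁻¹ * x) * x⁻¹ := by rw [this]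
        _ = y * a * y⁻¹ := by group
    · intro h
      have : y * a * y⁻¹ = x * a * x⁻¹ := h.symm
      calc x⁻¹ * y * a = x⁻¹ * (y * a * y⁻¹) * y := by group
        _ = x⁻¹ * (x * a * x⁻¹) * y := by rw [this]
        _ = a * (x⁻¹ * y) := by group
  have h2 : Nat.card (Quotient (QuotientGroup.leftRel (centralizer ({a} : Set G)))) =
      Nat.card (cl a) := by
    rw [h1]
    exact Nat.card_congr (Setoid.quotientKerEquivRange _)
  rw [← h2]
  rfl

/-- The number of commutators of a finite group whose conjugacy classes have at most `b`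
elements. -/
theorem card_commutatorSet_le [Finite G] (b : ℕ) (hb1 : 1 ≤ b)
    (hb : ∀ x : G, (centralizer ({x} : Set G)).index ≤ b) :
    Nat.card (commutatorSet G) ≤ b ^ b * (b * (b * b)) := by
  classical
  have := Fintype.ofFinite G
  -- an element with the largest class
  obtain ⟨a, -, ha⟩ := Finset.exists_max_image (Finset.univ : Finset G)
    (fun x => Nat.card (cl x)) ⟨1, Finset.mem_univ _⟩
  have hcl : ∀ x : G, Nat.card (cl x) ≤ b := fun x => (card_cl x).trans_le (hb x)
  -- representatives
  have hrep : ∀ z : cl a, ∃ g : G, g * a * g⁻¹ = z := fun z => z.2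
  choose h hh using hrep
  let C : Subgroup G := ⨅ z : cl a, centralizer ({h z} : Set G)
  have hC : C.index ≤ b ^ b := by
    refine (index_iInf_le _).trans ?_
    calc ∏ z : cl a, (centralizer ({h z} : Set G)).index ≤ ∏ _z : cl a, b :=
          Finset.prod_le_prod (fun _ _ => Nat.zero_le _) fun z _ => hb _
      _ = b ^ Fintype.card (cl a) := by rw [Finset.prod_const, Finset.card_univ]
      _ ≤ b ^ b := by
        refine Nat.pow_le_pow_right hb1 ?_
        rw [← Nat.card_eq_fintype_card]
        exact hcl a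
  -- commutators with elements of `C`
  have key : ∀ y ∈ C, ∀ g : G, ∃ w ∈ cl a, ∃ z ∈ cl a, ⁅g, y⁆ = w⁻¹ * z := by
    intro y hy g
    have hcomm : ∀ z : cl a, h z * y = y * h z := by
      intro z
      have h1 : y ∈ centralizer ({h z} : Set G) := (Subgroup.mem_iInf.1 hy) z
      exact (mem_centralizer_single.1 h1).symm
    have hmap : ∀ z : cl a, (z : G) * y ∈ cl (a * y) := by
      intro z
      refine ⟨h z, ?_⟩
      show h z * (a * y) * (h z)⁻¹ = z * y
      have h2 := hh z
      have h3 := hcomm z
      calc h z * (a * y) * (h z)⁻¹ = (h z * a * (h z)⁻¹) * (h z * y * (h z)⁻¹) := by group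
        _ = z * (y * h z * (h z)⁻¹) := by rw [h2, h3]
        _ = z * y := by group
    let f : cl a → cl (a * y) := fun z => ⟨z * y, hmap z⟩
    have hf : Function.Injective f := by
      intro z z' hzz
      have h4 : (z : G) * y = z' * y := congrArg Subtype.val hzz
      exact Subtype.ext (mul_right_cancel h4)
    have hfb : Function.Bijective f := by
      rw [Fintype.bijective_iff_injective_and_card]
      refine ⟨hf, le_antisymm (Fintype.card_le_of_injective f hf) ?_⟩
      have h5 := ha (a * y) (Finset.mem_univ _)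
      rw [Nat.card_eq_fintype_card, Nat.card_eq_fintype_card] at h5
      exact h5
    obtain ⟨z, hz⟩ := hfb.2 ⟨g * (a * y) * g⁻¹, g, rfl⟩
    have h6 : (z : G) * y = g * (a * y) * g⁻¹ := congrArg Subtype.val hz
    refine ⟨g * a * g⁻¹, ⟨g, rfl⟩, z, z.2, ?_⟩
    rw [commutatorElement_def]
    have h7 : (g * a * g⁻¹) * (g * y * g⁻¹) = z * y := by
      rw [h6]; group
    calc g * y * g⁻¹ * y⁻¹ = (g * a * g⁻¹)⁻¹ * ((g * a * g⁻¹) * (g * y * g⁻¹)) * y⁻¹ := by group
      _ = (g * a * g⁻¹)⁻¹ * (z * y) * y⁻¹ := by rw [h7]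
      _ = _ := by group
  -- all commutators
  let D : G ⧸ C → Finset G := fun q =>
    ((cl q.out).toFinset ×ˢ ((cl a).toFinset ×ˢ (cl a).toFinset)).image
      fun p => p.1 * (p.2.1⁻¹ * p.2.2) * q.out⁻¹
  have hsub : (commutatorSet G).toFinset ⊆ Finset.univ.biUnion D := by
    intro c hc
    rw [Set.mem_toFinset] at hc
    obtain ⟨g, x, rfl⟩ := hc
    rw [Finset.mem_biUnion]
    refine ⟨(x : G ⧸ C), Finset.mem_univ _, ?_⟩
    have hx : ((x : G ⧸ C).out)⁻¹ * x ∈ C := by
      rw [← QuotientGroup.eq, QuotientGroup.out_eq']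
    set t := (x : G ⧸ C).out with ht
    obtain ⟨w, hw, z, hz, hwz⟩ := key _ hx g
    rw [Finset.mem_image]
    refine ⟨(g * t * g⁻¹, w, z), ?_, ?_⟩
    · simp only [Finset.mem_product, Set.mem_toFinset]
      exact ⟨⟨g, rfl⟩, hw, hz⟩
    · show g * t * g⁻¹ * (w⁻¹ * z) * t⁻¹ = ⁅g, x⁆
      rw [← hwz, commutatorElement_def, commutatorElement_def]
      group
  rw [Nat.card_eq_fintype_card, ← Set.toFinset_card]
  refine (Finset.card_le_card hsub).trans (Finset.card_biUnion_le.trans ?_)
  have hD : ∀ q : G ⧸ C, (D q).card ≤ b * (b * b) := by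
    intro q
    refine Finset.card_image_le.trans ?_
    rw [Finset.card_product, Finset.card_product, Set.toFinset_card, Set.toFinset_card,
      ← Nat.card_eq_fintype_card, ← Nat.card_eq_fintype_card]
    exact Nat.mul_le_mul (hcl _) (Nat.mul_le_mul (hcl _) (hcl _))
  refine (Finset.sum_le_sum fun q _ => hD q).trans ?_
  rw [Finset.sum_const, Finset.card_univ, smul_eq_mul]
  refine Nat.mul_le_mul_right _ ?_
  rw [← Nat.card_eq_fintype_card]
  exact hC

/-- B. H. Neumann, I. M. Bride, J. Wiegold: the commutator subgroup is small. -/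
theorem exists_commutator_bound (b : ℕ) (hb1 : 1 ≤ b) : ∃ s : ℕ, ∀ (G : Type*) [Group G]
    [Finite G], (∀ x : G, (centralizer ({x} : Set G)).index ≤ b) →
      Nat.card (_root_.commutator G) ≤ s := by
  refine ⟨∑ i ∈ Finset.range (b ^ b * (b * (b * b)) + 1), cardCommutatorBound i,
    fun G _ _ h => ?_⟩
  have h1 := card_commutatorSet_le b hb1 h
  have h2 := card_commutator_le_of_finite_commutatorSet (G := G)
  refine h2.trans ?_
  exact Finset.single_le_sum (f := cardCommutatorBound) (fun _ _ => Nat.zero_le _)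
    (Finset.mem_range.2 (Nat.lt_succ_of_le h1))

end Pool.Agent.Y392.Neu
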