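import Mathlib
import Pool.Agent.Y392.Neu.Bfc

/-! P. M. Neumann: if many pairs of elements of a finite group commute then it has a subgroup of
small index with a small commutator subgroup. -/

set_option autoImplicit false

namespace Pool.Agent.Y392.Neu

open Subgroup

variable {G : Type*} [Group G]

/-- products of `j` elements of `X` -/
def Wd (X : Set G) (j : ℕ) : Set G := {h | ∃ l : List G, (∀ x ∈ l, x ∈ X) ∧ l.length = j ∧ l.prod = h}

theorem wd_mul {X : Set G} {i j : ℕ} {x y : G} (hx : x ∈ Wd X i) (hy : y ∈ Wd X j) :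
    x * y ∈ Wd X (i + j) := by
  obtain ⟨l, h1, h2, rfl⟩ := hx
  obtain ⟨l', h1', h2', rfl⟩ := hy
  refine ⟨l ++ l', ?_, by simp [h2, h2'], by simp⟩
  intro z hz
  rcases List.mem_append.1 hz with h | h
  · exact h1 z h
  · exact h1' z h

theorem wd_one {X : Set G} {x : G} (hx : x ∈ X) : x ∈ Wd X 1 :=
  ⟨[x], by simpa using hx, rfl, by simp⟩

theorem wd_mono {X : Set G} (h1 : (1 : G) ∈ X) {i j : ℕ} (hij : i ≤ j) : Wd X i ⊆ Wd X j := by
  obtain ⟨k, rfl⟩ := Nat.exists_eq_add_of_le hij
  intro x hx
  have h2 : (1 : G) ∈ Wd X k := ⟨List.replicate k 1, by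
    intro y hy
    rw [List.eq_of_mem_replicate hy]
    exact h1, by simp, by simp⟩
  have := wd_mul hx h2
  rwa [mul_one] at this

theorem closure_subset_wd [Finite G] (X : Set G) (h1 : (1 : G) ∈ X) (hinv : ∀ x ∈ X, x⁻¹ ∈ X)
    (t : ℕ) (ht : Nat.card G < t * Nat.card X) :
    ∀ h ∈ closure X, h ∈ Wd X (3 * t) := by
  classical
  have := Fintype.ofFinite G
  -- some power is stable
  have hstab : ∃ i < t, Wd X (3 * i + 1) ⊆ Wd X (3 * i) := by
    by_contra hcon
    push Not at hcon
    have h2 : ∀ i : Fin t, ∃ x, x ∈ Wd X (3 * i + 1) ∧ x ∉ Wd X (3 * i) := fun i =>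
      Set.not_subset.1 (hcon i i.2)
    choose x hx hx' using h2
    have hinj : Function.Injective (fun p : Fin t × X => x p.1 * (p.2 : G)) := by
      have key : ∀ (i j : Fin t) (u v : X), i < j → x i * (u : G) ≠ x j * (v : G) := by
        intro i j u v hij heq
        have h3 : x j = x i * u * (v : G)⁻¹ := by
          rw [heq, mul_inv_cancel_right]
        have h4 : x j ∈ Wd X (3 * i + 1 + 1 + 1) := by
          rw [h3]
          exact wd_mul (wd_mul (hx i) (wd_one u.2)) (wd_one (hinv _ v.2))
        have h5 : 3 * (i : ℕ) + 1 + 1 + 1 ≤ 3 * (j : ℕ) := by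
          have : (i : ℕ) < j := hij
          omega
        exact hx' j (wd_mono h1 h5 h4)
      rintro ⟨i, u⟩ ⟨j, v⟩ heq
      rcases lt_trichotomy i j with h | h | h
      · exact absurd heq (key i j u v h)
      · subst h
        have : (u : G) = v := mul_left_cancel heq
        rw [Subtype.ext this]
      · exact absurd heq.symm (key j i v u h)
    have h6 := Nat.card_le_card_of_injective _ hinj
    rw [Nat.card_prod, Nat.card_fin] at h6
    omega
  obtain ⟨i, hi, hst⟩ := hstab
  have hpow : ∀ m, Wd X m ⊆ Wd X (3 * i) := by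
    intro m
    induction m with
    | zero => exact wd_mono h1 (Nat.zero_le _)
    | succ m ih =>
      rintro h ⟨l, hl, hlen, rfl⟩
      have hne : l ≠ [] := by
        rintro rfl
        simp at hlen
      obtain ⟨l', a, rfl⟩ : ∃ l' a, l = l' ++ [a] :=
        ⟨l.dropLast, l.getLast hne, (List.dropLast_append_getLast hne).symm⟩
      rw [List.prod_append, List.prod_singleton]
      apply hst
      refine wd_mul (ih ⟨l', fun x hx => hl x (by simp [hx]), ?_, rfl⟩) (wd_one (hl a (by simp)))
      simpa using hlen
  intro h hh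
  have hh' : h ∈ Submonoid.closure X := by
    rw [← Subgroup.closure_toSubmonoid_of_finite]
    exact hh
  obtain ⟨l, hl, hlp⟩ := Submonoid.exists_list_of_mem_closure hh'
  exact wd_mono h1 (by omega) (hpow l.length ⟨l, hl, rfl, hlp⟩)

theorem index_centralizer_list [Finite G] (b : ℕ) (l : List G)
    (hl : ∀ x ∈ l, (centralizer ({x} : Set G)).index ≤ b) :
    (centralizer ({l.prod} : Set G)).index ≤ b ^ l.length := by
  induction l with
  | nil =>
    have : centralizer ({([] : List G).prod} : Set G) = ⊤ := by
      rw [eq_top_iff]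
      intro g _
      rw [mem_centralizer_single]
      simp
    rw [this, index_top]
    simp
  | cons a l ih =>
    have h1 : centralizer ({a} : Set G) ⊓ centralizer ({l.prod} : Set G) ≤
        centralizer ({(a :: l).prod} : Set G) := by
      rintro g ⟨h2, h3⟩
      have h2' := mem_centralizer_single.1 h2
      have h3' := mem_centralizer_single.1 h3
      rw [mem_centralizer_single, List.prod_cons, ← mul_assoc, h2', mul_assoc, h3', mul_assoc]
    have h4 : (centralizer ({(a :: l).prod} : Set G)).index ≤
        (centralizer ({a} : Set G) ⊓ centralizer ({l.prod} : Set G)).index :=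
      Nat.le_of_dvd (Nat.pos_of_ne_zero FiniteIndex.index_ne_zero) (index_dvd_of_le h1)
    refine h4.trans (index_inf_le.trans ?_)
    rw [List.length_cons, pow_succ, mul_comm]
    exact Nat.mul_le_mul (ih fun x hx => hl x (List.mem_cons_of_mem _ hx))
      (hl a List.mem_cons_self)

/-- P. M. Neumann's theorem. -/
theorem neumann (ε : ℝ) (hε : 0 < ε) : ∃ K s : ℕ, ∀ (G : Type*) [Group G] [Finite G],
    ε * (Nat.card G : ℝ) ^ 2 ≤ Nat.card {p : G × G // p.1 * p.2 = p.2 * p.1} →
    ∃ H : Subgroup G, H.index ≤ K ∧ Nat.card (_root_.commutator H) ≤ s := by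
  classical
  set b : ℕ := ⌈2 / ε⌉₊ + 1 with hbdef
  have hb0 : 2 / ε ≤ b := (Nat.le_ceil _).trans (by rw [hbdef]; push_cast; linarith)
  have hb1 : 1 ≤ b := by omega
  have hb2 : 2 / ε < b := by
    have := Nat.le_ceil (2 / ε)
    rw [hbdef]
    push_cast
    linarith
  obtain ⟨s, hs⟩ := exists_commutator_bound (b ^ (3 * b)) (Nat.one_le_pow _ _ hb1)
  refine ⟨b, s, fun G _ _ hcomm => ?_⟩
  have := Fintype.ofFinite G
  have hGpos : (0 : ℝ) < Nat.card G := by exact_mod_cast Nat.card_pos
  let X : Set G := {x | (centralizer ({x} : Set G)).index ≤ b}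
  -- many elements of small index
  have hX : ε / 2 * (Nat.card G : ℝ) ≤ Nat.card X := by
    have h1 : Nat.card {p : G × G // p.1 * p.2 = p.2 * p.1} =
        ∑ x : G, Nat.card (centralizer ({x} : Set G)) := by
      have e : {p : G × G // p.1 * p.2 = p.2 * p.1} ≃
          Σ x : G, (centralizer ({x} : Set G)) :=
        { toFun := fun p => ⟨p.1.1, ⟨p.1.2, mem_centralizer_single.2 p.2.symm⟩⟩
          invFun := fun q => ⟨(q.1, q.2.1), (mem_centralizer_single.1 q.2.2).symm⟩
          left_inv := fun p => rfl
          right_inv := fun q => rfl }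
      rw [Nat.card_congr e, Nat.card_sigma]
    have h2 : ∀ x : G, (Nat.card (centralizer ({x} : Set G)) : ℝ) ≤
        (if x ∈ X then (Nat.card G : ℝ) else 0) + ε / 2 * Nat.card G := by
      intro x
      by_cases hx : x ∈ X
      · rw [if_pos hx]
        have h3 : Nat.card (centralizer ({x} : Set G)) ≤ Nat.card G := Subgroup.card_le_card_group _
        have h4 : (Nat.card (centralizer ({x} : Set G)) : ℝ) ≤ Nat.card G := by exact_mod_cast h3
        have : 0 ≤ ε / 2 * (Nat.card G : ℝ) := by positivity
        linarith
      · rw [if_neg hx, zero_add]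
        have h3 : b < (centralizer ({x} : Set G)).index := not_le.1 hx
        have h4 := (centralizer ({x} : Set G)).index_mul_card
        have h5 : ((centralizer ({x} : Set G)).index : ℝ) *
            Nat.card (centralizer ({x} : Set G)) = Nat.card G := by exact_mod_cast h4
        have h6 : (b : ℝ) ≤ (centralizer ({x} : Set G)).index := by exact_mod_cast h3.le
        have h7 : (0 : ℝ) ≤ Nat.card (centralizer ({x} : Set G)) := Nat.cast_nonneg _
        have h8 : 2 / ε * Nat.card (centralizer ({x} : Set G)) ≤ Nat.card G := by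
          rw [← h5]
          exact mul_le_mul_of_nonneg_right (hb0.trans h6) h7
        have h9 : ε / 2 * (2 / ε * Nat.card (centralizer ({x} : Set G))) ≤
            ε / 2 * Nat.card G := mul_le_mul_of_nonneg_left h8 (by positivity)
        have h10 : ε / 2 * (2 / ε * (Nat.card (centralizer ({x} : Set G)) : ℝ)) =
            Nat.card (centralizer ({x} : Set G)) := by field_simp
        linarith
    have h3 : (Nat.card {p : G × G // p.1 * p.2 = p.2 * p.1} : ℝ) ≤
        Nat.card X * Nat.card G + ε / 2 * Nat.card G * Nat.card G := by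
      rw [h1]
      push_cast
      refine (Finset.sum_le_sum fun x _ => h2 x).trans ?_
      rw [Finset.sum_add_distrib, ← Finset.sum_filter, Finset.sum_const, Finset.sum_const,
        nsmul_eq_mul, nsmul_eq_mul, Finset.card_univ]
      have h4 : (Finset.univ.filter fun x => x ∈ X).card = Nat.card X := by
        rw [Nat.card_eq_fintype_card]
        exact (Fintype.card_subtype _).symm
      rw [h4, ← Nat.card_eq_fintype_card (α := G)]
      apply le_of_eq
      ring
    have h4 := hcomm.trans h3
    have h5 : ε / 2 * (Nat.card G : ℝ) * Nat.card G ≤ Nat.card X * Nat.card G := by nlinarith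
    exact le_of_mul_le_mul_right h5 hGpos
  have h1X : (1 : G) ∈ X := by
    show (centralizer ({(1 : G)} : Set G)).index ≤ b
    have : centralizer ({(1 : G)} : Set G) = ⊤ := by
      rw [eq_top_iff]
      intro g _
      rw [mem_centralizer_single]
      simp
    rw [this, index_top]
    exact hb1
  have hinvX : ∀ x ∈ X, x⁻¹ ∈ X := by
    intro x hx
    show (centralizer ({x⁻¹} : Set G)).index ≤ b
    have : centralizer ({x⁻¹} : Set G) = centralizer ({x} : Set G) := by
      ext g
      rw [mem_centralizer_single, mem_centralizer_single]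
      constructor
      · intro h
        calc g * x = x * (x⁻¹ * g) * x := by group
          _ = x * (g * x⁻¹) * x := by rw [h]
          _ = x * g := by group
      · intro h
        calc g * x⁻¹ = x⁻¹ * (x * g) * x⁻¹ := by group
          _ = x⁻¹ * (g * x) * x⁻¹ := by rw [h]
          _ = x⁻¹ * g := by group
    rw [this]
    exact hx
  have hXpos : (0 : ℝ) < Nat.card X := lt_of_lt_of_le (by positivity) hX
  have hbX : (Nat.card G : ℝ) < b * Nat.card X := by
    have h1 : (Nat.card G : ℝ) ≤ 2 / ε * Nat.card X := by
      have : 2 / ε * (ε / 2 * (Nat.card G : ℝ)) ≤ 2 / ε * Nat.card X :=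
        mul_le_mul_of_nonneg_left hX (by positivity)
      have h2 : 2 / ε * (ε / 2 * (Nat.card G : ℝ)) = Nat.card G := by field_simp
      linarith
    exact h1.trans_lt (mul_lt_mul_of_pos_right hb2 hXpos)
  have hbX' : Nat.card G < b * Nat.card X := by exact_mod_cast hbX
  refine ⟨closure X, ?_, ?_⟩
  · -- the index
    have h1 : Nat.card X ≤ Nat.card (closure X) :=
      Nat.card_mono (Set.toFinite _) subset_closure
    have h2 := (closure X).index_mul_card
    have h3 : 0 < Nat.card (closure X) := Nat.card_pos
    by_contra hcon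
    push Not at hcon
    have h4 : b * Nat.card X ≤ (closure X).index * Nat.card (closure X) :=
      Nat.mul_le_mul hcon.le h1
    omega
  · apply hs
    rintro ⟨h, hh⟩
    obtain ⟨l, hl, hlen, hlp⟩ := closure_subset_wd X h1X hinvX b hbX' h hh
    have h1 : (centralizer ({h} : Set G)).index ≤ b ^ (3 * b) := by
      rw [← hlp, ← hlen]
      exact index_centralizer_list b l fun x hx => hl x hx
    have h2 : (centralizer ({h} : Set G)).subgroupOf (closure X) ≤
        centralizer ({⟨h, hh⟩} : Set (closure X)) := by
      intro g hg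
      rw [mem_subgroupOf, mem_centralizer_single] at hg
      rw [mem_centralizer_single]
      exact Subtype.ext hg
    have h3 : (centralizer ({⟨h, hh⟩} : Set (closure X))).index ≤
        ((centralizer ({h} : Set G)).subgroupOf (closure X)).index :=
      Nat.le_of_dvd (Nat.pos_of_ne_zero FiniteIndex.index_ne_zero) (index_dvd_of_le h2)
    refine h3.trans (le_trans ?_ h1)
    have h4 : (centralizer ({h} : Set G)).relIndex (closure X) ≤
        (centralizer ({h} : Set G)).relIndex ⊤ :=
      relIndex_le_of_le_right le_top (by rw [relIndex_top_right]; exact FiniteIndex.index_ne_zero)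
    rw [relIndex_top_right] at h4
    exact h4

end Pool.Agent.Y392.Neu
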